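import Pool.Agent.HUK.Stmts

/-! HUK, row FGI (helper81): closed subgroups of bounded index of a compact group of `ℓ`-adic matrices. -/

set_option autoImplicit false

namespace Pool.Agent.HUK.H81

open Pool.Agent.HUK

section abstr

variable {T : Type} [Group T] [TopologicalSpace T] [IsTopologicalGroup T] [CompactSpace T]

theorem isOpen_smul_eq (K : Subgroup T) (hK : IsOpen (K : Set T)) (x y : T ⧸ K) :
    IsOpen {g : T | g • x = y} := by
  induction x using QuotientGroup.induction_on with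
  | H a =>
    induction y using QuotientGroup.induction_on with
    | H b =>
      have h : {g : T | g • (a : T ⧸ K) = (b : T ⧸ K)} = (fun g => b⁻¹ * (g * a)) ⁻¹' (K : Set T) := by
        ext g
        rw [Set.mem_ofPred_eq, Set.mem_preimage, SetLike.mem_coe, ← QuotientGroup.eq, eq_comm]
        rfl
      rw [h]
      exact hK.preimage (by fun_prop)

theorem exists_hom (K : Subgroup T) (hK : IsClosed (K : Set T)) (n : ℕ) (hn : n ≠ 0)
    (hi : K.index = n) : ∃ (φ : T →* Equiv.Perm (Fin n)) (x : Fin n),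
      (∀ y z, IsOpen {g : T | φ g y = z}) ∧ ∀ g, g ∈ K ↔ φ g x = x := by
  have hfi : K.FiniteIndex := ⟨by rw [hi]; exact hn⟩
  have hop : IsOpen (K : Set T) := K.isOpen_of_isClosed_of_finiteIndex hK
  have hfin : Finite (T ⧸ K) := Subgroup.finite_quotient_of_finiteIndex
  let e : (T ⧸ K) ≃ Fin n := Finite.equivFinOfCardEq hi
  refine ⟨(e.permCongrHom.toMonoidHom).comp (MulAction.toPermHom T (T ⧸ K)), e ((1 : T) : T ⧸ K),
    fun y z => ?_, fun g => ?_⟩
  · have h : {g : T | (e.permCongrHom.toMonoidHom).comp (MulAction.toPermHom T (T ⧸ K)) g y = z} =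
        {g : T | g • (e.symm y) = e.symm z} := by
      ext g
      rw [Set.mem_ofPred_eq, Set.mem_ofPred_eq]
      show e (g • e.symm y) = z ↔ _
      exact ⟨fun h => by rw [← h, Equiv.symm_apply_apply], fun h => by rw [h, Equiv.apply_symm_apply]⟩
    rw [h]
    exact isOpen_smul_eq K hop _ _
  · show g ∈ K ↔ e (g • e.symm (e ((1 : T) : T ⧸ K))) = e ((1 : T) : T ⧸ K)
    rw [Equiv.symm_apply_apply, EmbeddingLike.apply_eq_iff_eq]
    have h : g • ((1 : T) : T ⧸ K) = ((g * 1 : T) : T ⧸ K) := rfl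
    rw [h, mul_one, eq_comm, QuotientGroup.eq, inv_one, one_mul]

theorem finite_index_eq (t : Finset T)
    (ht : ∀ K : Subgroup T, IsClosed (K : Set T) → (∀ g ∈ t, g ∈ K) → K = ⊤) (n : ℕ) (hn : n ≠ 0) :
    Finite {K : Subgroup T // IsClosed (K : Set T) ∧ K.index = n} := by
  classical
  choose φ x h1 h2 using fun K : {K : Subgroup T // IsClosed (K : Set T) ∧ K.index = n} =>
    exists_hom K.1 K.2.1 n hn K.2.2
  let code : {K : Subgroup T // IsClosed (K : Set T) ∧ K.index = n} →
      (t → Equiv.Perm (Fin n)) × Fin n := fun K => (fun g => φ K g, x K)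
  refine Finite.of_injective code fun K K' h => ?_
  have hx : x K = x K' := congrArg Prod.snd h
  have hφ : ∀ g ∈ t, φ K g = φ K' g := fun g hg => congrFun (congrArg Prod.fst h) ⟨g, hg⟩
  have hcl : IsClosed (((φ K).eqLocus (φ K') : Subgroup T) : Set T) := by
    have hs : (((φ K).eqLocus (φ K') : Subgroup T) : Set T) =
        (⋃ y : Fin n, ⋃ z : Fin n, ⋃ z' : Fin n, ⋃ _ : z ≠ z',
          {g : T | φ K g y = z} ∩ {g : T | φ K' g y = z'})ᶜ := by
      ext g
      rw [SetLike.mem_coe, Set.mem_compl_iff]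
      simp only [Set.mem_iUnion, Set.mem_inter_iff, Set.mem_ofPred_eq, not_exists, not_and]
      constructor
      · intro hg y z z' hz h3 h4
        have h5 : φ K g = φ K' g := hg
        rw [h5, h4] at h3
        exact hz h3.symm
      · intro hg
        show φ K g = φ K' g
        refine Equiv.ext fun y => ?_
        by_contra hne
        exact hg y _ _ hne rfl rfl
    rw [hs]
    refine IsOpen.isClosed_compl ?_
    refine isOpen_iUnion fun y => isOpen_iUnion fun z => isOpen_iUnion fun z' => isOpen_iUnion fun _ =>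
      (h1 K y z).inter (h1 K' y z')
  have htop : (φ K).eqLocus (φ K') = ⊤ := ht _ hcl hφ
  have heq : ∀ g, φ K g = φ K' g := fun g => by
    have : g ∈ (φ K).eqLocus (φ K') := by rw [htop]; trivial
    exact this
  refine Subtype.ext (Subgroup.ext fun g => ?_)
  rw [h2 K g, h2 K' g, heq g, hx]

theorem exists_inf (t : Finset T)
    (ht : ∀ K : Subgroup T, IsClosed (K : Set T) → (∀ g ∈ t, g ∈ K) → K = ⊤) (m : ℕ) :
    ∃ W : Subgroup T, IsClosed (W : Set T) ∧ W.FiniteIndex ∧
      ∀ K : Subgroup T, IsClosed (K : Set T) → K.index ≠ 0 → K.index ≤ m → W ≤ K := by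
  let I : Type := Σ n : Fin m, {K : Subgroup T // IsClosed (K : Set T) ∧ K.index = (n : ℕ) + 1}
  have hI : Finite I := by
    have : ∀ n : Fin m, Finite {K : Subgroup T // IsClosed (K : Set T) ∧ K.index = (n : ℕ) + 1} :=
      fun n => finite_index_eq t ht _ (Nat.succ_ne_zero _)
    infer_instance
  refine ⟨⨅ i : I, i.2.1, ?_, ?_, ?_⟩
  · rw [Subgroup.coe_iInf]
    exact isClosed_iInter fun i => i.2.2.1
  · exact Subgroup.finiteIndex_iInf fun i => ⟨by rw [i.2.2.2]; exact Nat.succ_ne_zero _⟩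
  · intro K hK h0 hm
    have h1 : K.index - 1 < m := by omega
    have h2 : K.index = ((⟨K.index - 1, h1⟩ : Fin m) : ℕ) + 1 := by
      show K.index = K.index - 1 + 1
      omega
    exact iInf_le (fun i : I => i.2.1) ⟨⟨K.index - 1, h1⟩, ⟨K, hK, h2⟩⟩

end abstr

/-- row FGI -/
theorem fgi : FgiStmt := by
  classical
  intro d _ _ ℓ _ G hG m
  obtain ⟨U, hU, h1, hU2⟩ := Pool.Agent.MTL.H33.fra d ℓ G hG
  have hcs : CompactSpace G := isCompact_iff_compactSpace.mp hG
  have hGc : IsClosed (G : Set (Matrix.GeneralLinearGroup d ℚ_[ℓ])) := hG.isClosed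
  have hmap : ∀ K : Subgroup G, IsClosed (K : Set G) →
      IsClosed ((K.map G.subtype : Subgroup _) : Set (Matrix.GeneralLinearGroup d ℚ_[ℓ])) := by
    intro K hK
    rw [Subgroup.coe_map]
    exact hGc.isClosedEmbedding_subtypeVal.isClosedMap _ hK
  -- topological generators
  obtain ⟨t, ht⟩ : ∃ t : Finset G, ∀ x : G, ∃ g ∈ t, ((g : Matrix.GeneralLinearGroup d ℚ_[ℓ]))⁻¹ * x ∈ U := by
    have hop : ∀ g : G, IsOpen {x : G | (g : Matrix.GeneralLinearGroup d ℚ_[ℓ])⁻¹ * x ∈ U} := fun g =>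
      hU.preimage (continuous_const.mul continuous_subtype_val)
    obtain ⟨t, ht⟩ := isCompact_univ.elim_finite_subcover
      (fun g : G => {x : G | (g : Matrix.GeneralLinearGroup d ℚ_[ℓ])⁻¹ * x ∈ U}) hop (by
        intro x _
        refine Set.mem_iUnion.mpr ⟨x, ?_⟩
        show (x : Matrix.GeneralLinearGroup d ℚ_[ℓ])⁻¹ * x ∈ U
        rw [inv_mul_cancel]
        exact h1)
    refine ⟨t, fun x => ?_⟩
    have := ht (Set.mem_univ x)
    simp only [Set.mem_iUnion] at this
    obtain ⟨g, hg, hx⟩ := this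
    exact ⟨g, hg, hx⟩
  have hgen : ∀ K : Subgroup G, IsClosed (K : Set G) → (∀ g ∈ t, g ∈ K) → K = ⊤ := by
    intro K hK hgt
    have h2 := hU2 (K.map G.subtype) (hmap K hK) (Subgroup.map_subtype_le K) (by
      intro g hg
      obtain ⟨y, hy, hyU⟩ := ht ⟨g, hg⟩
      exact ⟨y, Subgroup.mem_map.mpr ⟨y, hgt y hy, rfl⟩, hyU⟩)
    rw [eq_top_iff]
    intro x _
    have h3 : (x : Matrix.GeneralLinearGroup d ℚ_[ℓ]) ∈ K.map G.subtype := by rw [h2]; exact x.2
    obtain ⟨y, hy, hxy⟩ := Subgroup.mem_map.mp h3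
    have : y = x := Subtype.ext hxy
    rw [← this]
    exact hy
  obtain ⟨W, hWc, hWf, hW⟩ := exists_inf t hgen m
  refine ⟨W.map G.subtype, Subgroup.map_subtype_le W, hmap W hWc, ?_, ?_⟩
  · have h4 : (W.map G.subtype).subgroupOf G = W := by
      rw [Subgroup.subgroupOf]
      exact Subgroup.comap_map_eq_self_of_injective G.subtype_injective W
    rw [Subgroup.relIndex, h4]
    exact hWf.index_ne_zero
  · intro H hHG hHc h0 hm
    have h5 : W ≤ H.subgroupOf G := hW _ (hHc.preimage continuous_subtype_val) h0 hm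
    intro x hx
    obtain ⟨y, hy, rfl⟩ := Subgroup.mem_map.mp hx
    exact Subgroup.mem_subgroupOf.mp (h5 hy)

end Pool.Agent.HUK.H81
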