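import Pool.Agent.HUK.Stmts

/-! HUK, row FNU (helper81): the monodromy groups of the specialised representations. -/

set_option autoImplicit false

namespace Pool.Agent.HUK.H81

open Polynomial NumberField Matrix Pool.Agent.MTL Pool.Agent.MTL.H34 Pool.Agent.Helper78_MT
  Pool.Agent.HIK Pool.Agent.HIP Pool.Agent.MTPN Pool.Agent.MTN Pool.Agent.HUK

universe u

/-- row FNU -/
theorem fnu (sru : SruStmt) : FnuStmt.{u} := by
  intro d _ _ ℓ _ ρ hρ
  obtain ⟨S, hS, h⟩ := sru d ℓ ρ hρ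
  refine ⟨S, hS, fun a ha ρa hsp F _ _ => ?_⟩
  obtain ⟨h1, h2⟩ := h a ha ρa hsp
  exact monA d ℚ_[ℓ] GT (Stab a) ρ ρa h1 h2 F

end Pool.Agent.HUK.H81
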