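import Pool.Agent.HUK.Stmts

/-! HUK, row HBC (helper81): the number of the algebraic integers of degree at most `m` all whose conjugates
are bounded by `X`. -/

set_option autoImplicit false

namespace Pool.Agent.HUK.H81

open Polynomial Pool.Agent.HUK

/-- the monic polynomial of degree `m` with the coefficients `a` -/
noncomputable def qpol (m : ℕ) (a : Fin m → ℤ) : ℤ[X] :=
  X ^ m + ∑ i : Fin m, C (a i) * X ^ (i : ℕ)

theorem qpol_natDegree_le (m : ℕ) (a : Fin m → ℤ) : (qpol m a).natDegree ≤ m := by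
  unfold qpol
  refine (natDegree_add_le _ _).trans (max_le (natDegree_X_pow_le m) ?_)
  refine natDegree_sum_le_of_forall_le _ _ fun i _ => ?_
  exact (natDegree_C_mul_X_pow_le _ _).trans i.2.le

theorem qpol_coeff (m : ℕ) (p : ℤ[X]) (hp : p.Monic) (hd : p.natDegree = m) :
    qpol m (fun i => p.coeff i) = p := by
  have h := hp.as_sum
  rw [hd, ← Fin.sum_univ_eq_sum_range (fun i => C (p.coeff i) * X ^ i) m] at h
  exact h.symm

theorem qpol_ne (m : ℕ) (a : Fin m → ℤ) : (qpol m a).coeff m = 1 := by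
  unfold qpol
  rw [coeff_add, coeff_X_pow_self, finsetSum_coeff]
  rw [Finset.sum_eq_zero, add_zero]
  intro i _
  rw [coeff_C_mul_X_pow, if_neg (by have := i.2; omega)]

theorem sum_sub (m : ℕ) : ∑ i ∈ Finset.range m, (m - i) = m * (m + 1) / 2 := by
  have h1 : ∑ i ∈ Finset.range m, (m - i) = ∑ j ∈ Finset.range m, (j + 1) := by
    rw [← Finset.sum_range_reflect]
    refine Finset.sum_congr rfl fun i hi => ?_
    have := Finset.mem_range.mp hi
    omega
  have h2 : ∑ j ∈ Finset.range m, (j + 1) = ∑ j ∈ Finset.range (m + 1), j := by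
    rw [Finset.sum_range_succ' (fun j => j) m]
    rfl
  rw [h1, h2, Finset.sum_range_id, Nat.add_sub_cancel, mul_comm]

/-- row HBC -/
theorem hbc : HbcStmt := by
  classical
  intro E _ _ m
  refine ⟨m * (3 * 2 ^ m) ^ m, fun X hX => ?_⟩
  let B : Fin m → ℤ := fun i => 2 ^ m * (X : ℤ) ^ (m - (i : ℕ))
  let box : Finset (Fin m → ℤ) := Fintype.piFinset fun i => Finset.Icc (-(B i)) (B i)
  let T : Finset E := box.biUnion fun a => ((qpol m a).map (algebraMap ℤ E)).roots.toFinset
  have hsub : Hb E m X ⊆ (T : Set E) := by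
    rintro x ⟨p, hp, hpd, hz, hx⟩
    let q : ℤ[X] := p * Polynomial.X ^ (m - p.natDegree)
    have hq : q.Monic := hp.mul (monic_X_pow _)
    have hqd : q.natDegree = m := by
      rw [hp.natDegree_mul (monic_X_pow _), natDegree_X_pow]
      omega
    have hqz : ∀ z : ℂ, aeval z q = 0 → ‖z‖ ≤ X := by
      intro z h
      rw [map_mul, map_pow, aeval_X] at h
      rcases mul_eq_zero.mp h with h | h
      · exact hz z h
      · have h0 : z = 0 := by
          by_contra hne
          exact pow_ne_zero _ hne h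
        rw [h0, norm_zero]
        positivity
    have hqx : aeval x q = 0 := by
      rw [map_mul, hx, zero_mul]
    have hspl : (q.map (Int.castRingHom ℂ)).Splits := IsAlgClosed.splits _
    have hcf : ∀ i : ℕ, |q.coeff i| ≤ 2 ^ m * (X : ℤ) ^ (m - i) := by
      intro i
      have h := coeff_le_of_roots_le (K := ℂ) (p := q) (f := Int.castRingHom ℂ) (B := (X : ℝ)) i hq
        hspl (by
          intro z hz'
          apply hqz
          have h1 := (mem_roots'.mp hz').2
          rw [IsRoot.def, eval_map] at h1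
          rw [aeval_def]
          exact h1)
      rw [coeff_map, hqd] at h
      have h2 : ‖(Int.castRingHom ℂ) (q.coeff i)‖ = ((|q.coeff i| : ℤ) : ℝ) := by
        rw [eq_intCast, Complex.norm_intCast, Int.cast_abs]
      rw [h2] at h
      have h3 : ((m.choose i : ℕ) : ℝ) ≤ 2 ^ m := by
        exact_mod_cast Nat.choose_le_two_pow m i
      have h4 : ((|q.coeff i| : ℤ) : ℝ) ≤ 2 ^ m * (X : ℝ) ^ (m - i) := by
        refine h.trans ?_
        rw [mul_comm]
        exact mul_le_mul_of_nonneg_right h3 (by positivity)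
      exact_mod_cast h4
    have hmem : (fun i : Fin m => q.coeff i) ∈ box := by
      rw [Fintype.mem_piFinset]
      intro i
      rw [Finset.mem_Icc]
      exact abs_le.mp (hcf i)
    rw [Finset.mem_coe, Finset.mem_biUnion]
    refine ⟨_, hmem, ?_⟩
    rw [qpol_coeff m q hq hqd, Multiset.mem_toFinset, mem_roots (hq.map _).ne_zero, IsRoot.def,
      eval_map, ← aeval_def]
    exact hqx
  have hfin : (Hb E m X).Finite := (Finset.finite_toSet T).subset hsub
  refine ⟨hfin, ?_⟩
  have hc1 : Nat.card (Hb E m X) ≤ T.card := by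
    rw [Nat.card_coe_set_eq]
    have := Set.ncard_le_ncard hsub (Finset.finite_toSet T)
    rw [Set.ncard_coe_finset] at this
    exact this
  have hc2 : T.card ≤ box.card * m := by
    refine Finset.card_biUnion_le_card_mul _ _ _ fun a _ => ?_
    refine (Multiset.toFinset_card_le _).trans ((card_roots' _).trans ?_)
    exact natDegree_map_le.trans (qpol_natDegree_le m a)
  have hc3 : box.card ≤ (3 * 2 ^ m) ^ m * X ^ (m * (m + 1) / 2) := by
    rw [Fintype.card_piFinset]
    have h1 : ∀ i : Fin m, (Finset.Icc (-(B i)) (B i)).card ≤ (3 * 2 ^ m) * X ^ (m - (i : ℕ)) := by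
      intro i
      rw [Int.card_Icc]
      have h2 : (1 : ℤ) ≤ B i := by
        have h3 : (1 : ℤ) ≤ (X : ℤ) ^ (m - (i : ℕ)) := by exact_mod_cast Nat.one_le_pow _ _ hX
        have h4 : (1 : ℤ) ≤ 2 ^ m := by exact_mod_cast Nat.one_le_two_pow
        exact one_le_mul_of_one_le_of_one_le h4 h3
      have h5 : (B i + 1 - -(B i)).toNat ≤ (3 * B i).toNat := Int.toNat_le_toNat (by omega)
      refine h5.trans (le_of_eq ?_)
      have h6 : 3 * B i = (((3 * 2 ^ m) * X ^ (m - (i : ℕ)) : ℕ) : ℤ) := by
        push_cast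
        show 3 * (2 ^ m * (X : ℤ) ^ (m - (i : ℕ))) = _
        ring
      rw [h6, Int.toNat_natCast]
    refine (Finset.prod_le_prod' fun i _ => h1 i).trans (le_of_eq ?_)
    rw [Finset.prod_mul_distrib, Finset.prod_const, Finset.card_univ, Fintype.card_fin]
    congr 1
    rw [Fin.prod_univ_eq_prod_range (fun i => X ^ (m - i)) m, Finset.prod_pow_eq_pow_sum, sum_sub]
  have hc : Nat.card (Hb E m X) ≤ m * (3 * 2 ^ m) ^ m * X ^ (m * (m + 1) / 2) := by
    calc Nat.card (Hb E m X) ≤ box.card * m := hc1.trans hc2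
      _ ≤ ((3 * 2 ^ m) ^ m * X ^ (m * (m + 1) / 2)) * m := Nat.mul_le_mul_right _ hc3
      _ = m * (3 * 2 ^ m) ^ m * X ^ (m * (m + 1) / 2) := by ring
  exact_mod_cast hc

end Pool.Agent.HUK.H81
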