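import Pool.Agent.HUK.Stmts

/-! HUK, row SPD (helper81): countably many sparse sets. -/

set_option autoImplicit false

namespace Pool.Agent.HUK.H81

open Polynomial Pool.Agent.HUK

theorem coeff_taylor_bound (m B0 X : ℕ) (hX : 1 ≤ X) (κ : ℤ) (hκ : |κ| ≤ X) (p : ℤ[X])
    (hd : p.natDegree ≤ m) (hc : ∀ i, |p.coeff i| ≤ (B0 : ℤ)) (i : ℕ) :
    |(taylor κ p).coeff i| ≤ (((m + 1) * 2 ^ m * X ^ m * B0 : ℕ) : ℤ) := by
  have hX' : (1 : ℤ) ≤ X := by exact_mod_cast hX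
  rw [taylor_coeff, eval_eq_sum_range' (n := m + 1)
    (lt_of_le_of_lt ((natDegree_hasseDeriv_le p i).trans ((Nat.sub_le _ _).trans hd))
      (Nat.lt_succ_self m))]
  refine (Finset.abs_sum_le_sum_abs _ _).trans ?_
  have h : ∀ k ∈ Finset.range (m + 1), |(hasseDeriv i p).coeff k * κ ^ k| ≤
      2 ^ m * (X : ℤ) ^ m * B0 := by
    intro k hk
    have hk' : k ≤ m := Nat.lt_succ_iff.mp (Finset.mem_range.mp hk)
    rw [abs_mul, abs_pow, hasseDeriv_coeff, abs_mul, Nat.abs_cast]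
    have h1 : |κ| ^ k ≤ (X : ℤ) ^ m :=
      (pow_le_pow_left₀ (abs_nonneg _) hκ k).trans (pow_le_pow_right₀ hX' hk')
    by_cases h2 : k + i ≤ m
    · have h3 : (((k + i).choose i : ℕ) : ℤ) ≤ 2 ^ m := by
        exact_mod_cast (Nat.choose_le_two_pow _ _).trans (Nat.pow_le_pow_right (by norm_num) h2)
      calc ((((k + i).choose i : ℕ) : ℤ)) * |p.coeff (k + i)| * |κ| ^ k
          ≤ (2 ^ m * B0) * (X : ℤ) ^ m := by
            refine mul_le_mul (mul_le_mul h3 (hc _) (abs_nonneg _) (by positivity)) h1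
              (by positivity) (by positivity)
        _ = _ := by ring
    · have h4 : p.coeff (k + i) = 0 := coeff_eq_zero_of_natDegree_lt (by omega)
      rw [h4, abs_zero, mul_zero, zero_mul]
      positivity
  refine (Finset.sum_le_sum h).trans (le_of_eq ?_)
  rw [Finset.sum_const, Finset.card_range, nsmul_eq_mul]
  push_cast
  ring

theorem ip_shift (E : Type) [Field E] (m B0 X κ : ℕ) (hX : 1 ≤ X) (hκ : κ ≤ X) (x : E)
    (hx : x ∈ Ip E m B0) : x + κ ∈ Ip E m ((m + 1) * 2 ^ m * X ^ m * B0) := by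
  obtain ⟨p, hp, hd, hc, hx⟩ := hx
  refine ⟨taylor (-(κ : ℤ)) p, ?_, ?_, ?_, ?_⟩
  · rw [Monic, leadingCoeff_taylor]
    exact hp
  · rw [natDegree_taylor]
    exact hd
  · refine coeff_taylor_bound m B0 X hX _ ?_ p hd hc
    rw [abs_neg, Nat.abs_cast]
    exact_mod_cast hκ
  · rw [taylor_apply, aeval_comp, map_add, aeval_X, aeval_C]
    have : x + (κ : E) + (algebraMap ℤ E) (-(κ : ℤ)) = x := by
      rw [eq_intCast]
      push_cast
      ring
    rw [this]
    exact hx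

theorem ip_mono (E : Type) [Field E] (m B B' : ℕ) (h : B ≤ B') : Ip E m B ⊆ Ip E m B' := by
  rintro x ⟨p, hp, hd, hc, hx⟩
  exact ⟨p, hp, hd, fun i => (hc i).trans (by exact_mod_cast h), hx⟩

theorem exists_N (l : ℕ) (M θ : ℝ) (hM : 0 ≤ M) (hθ : 0 < θ) :
    ∃ N : ℕ, l + 1 ≤ N ∧ 2 ^ (l + 1) * M ≤ (N : ℝ) ^ θ := by
  have h0 : 0 ≤ 2 ^ (l + 1) * M := by positivity
  refine ⟨⌈(2 ^ (l + 1) * M) ^ (1 / θ)⌉₊ + (l + 1), by omega, ?_⟩
  have h1 : (2 ^ (l + 1) * M) ^ (1 / θ) ≤ ((⌈(2 ^ (l + 1) * M) ^ (1 / θ)⌉₊ + (l + 1) : ℕ) : ℝ) := by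
    push_cast
    have h2 := Nat.le_ceil ((2 ^ (l + 1) * M) ^ (1 / θ))
    have h3 : (0 : ℝ) ≤ l := Nat.cast_nonneg l
    linarith
  calc 2 ^ (l + 1) * M = ((2 ^ (l + 1) * M) ^ (1 / θ)) ^ θ := by
        rw [← Real.rpow_mul h0, one_div_mul_cancel hθ.ne', Real.rpow_one]
    _ ≤ _ := Real.rpow_le_rpow (Real.rpow_nonneg h0 _) h1 hθ.le

/-- row SPD -/
theorem spd : SpdStmt := by
  classical
  intro E _ _ δ δ' hδ S hS
  choose C hC using hS
  -- nonnegative constants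
  let c : ℕ → ℕ → ℕ → ℝ := fun l m A => max (C l m A) 0
  have hc0 : ∀ l m A, 0 ≤ c l m A := fun l m A => le_max_right _ _
  have hcC : ∀ l m A, C l m A ≤ c l m A := fun l m A => le_max_left _ _
  let γ : ℝ := δ - δ'
  have hγ : 0 < γ := sub_pos.mpr hδ
  let θ : ℕ → ℝ := fun l => γ / (2 * l + 1)
  have hθ : ∀ l, 0 < θ l := fun l => by
    have : (0 : ℝ) < 2 * l + 1 := by positivity
    exact div_pos hγ this
  let Mx : ℕ → ℝ := fun l => ∑ m ∈ Finset.range (l + 1), ∑ A ∈ Finset.range (l + 1), c l m A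
  have hMx0 : ∀ l, 0 ≤ Mx l := fun l =>
    Finset.sum_nonneg fun m _ => Finset.sum_nonneg fun A _ => hc0 l m A
  have hMx : ∀ l m A, m ≤ l → A ≤ l → c l m A ≤ Mx l := by
    intro l m A hm hA
    have h1 : c l m A ≤ ∑ A ∈ Finset.range (l + 1), c l m A :=
      Finset.single_le_sum (f := fun A => c l m A) (fun A _ => hc0 l m A)
        (Finset.mem_range.mpr (by omega))
    have h2 : (∑ A ∈ Finset.range (l + 1), c l m A) ≤ Mx l :=
      Finset.single_le_sum (f := fun m => ∑ A ∈ Finset.range (l + 1), c l m A)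
        (fun m _ => Finset.sum_nonneg fun A _ => hc0 l m A) (Finset.mem_range.mpr (by omega))
    exact h1.trans h2
  choose N hN1 hN2 using fun l => exists_N l (Mx l) (θ l) (hMx0 l) (hθ l)
  refine ⟨{a | ∃ l, a ∈ S l ∧ ∀ m, a ∉ Ip E m (N l)}, N, ?_, fun l a ha h => ⟨l, ha, h⟩⟩
  intro m A
  let M0 : ℕ := max m A
  let b : ℝ := (m + 1) * 2 ^ m
  have hb1 : 1 ≤ b := by
    have h1 : (1 : ℝ) ≤ m + 1 := by
      have : (0 : ℝ) ≤ m := Nat.cast_nonneg m
      linarith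
    have h2 : (1 : ℝ) ≤ 2 ^ m := one_le_pow₀ (by norm_num)
    exact one_le_mul_of_one_le_of_one_le h1 h2
  have hb0 : 0 ≤ b := by linarith
  let C0 : ℝ := ∑ l ∈ Finset.range M0, c l m A
  have hC00 : 0 ≤ C0 := Finset.sum_nonneg fun l _ => hc0 l m A
  refine ⟨C0 + b ^ γ, fun X hX x hx => ?_⟩
  have hX0 : (0 : ℝ) < X := by exact_mod_cast hX
  have hX1 : (1 : ℝ) ≤ X := by exact_mod_cast hX
  let B : ℕ := (m + 1) * 2 ^ m * X ^ m * X ^ A
  have hBr : (B : ℝ) = b * (X : ℝ) ^ ((m + A : ℕ) : ℝ) := by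
    rw [Real.rpow_natCast, pow_add]
    push_cast [B]
    show ((m : ℝ) + 1) * 2 ^ m * (X : ℝ) ^ m * (X : ℝ) ^ A = _
    ring
  -- finite sets
  let F : Set E → Finset ℕ := fun U => (Finset.range X).filter fun κ => x + κ ∈ U
  have hF : ∀ U : Set E, Nat.card {κ : ℕ // κ < X ∧ x + κ ∈ U} = (F U).card := fun U =>
    Nat.subtype_card (F U) fun κ => by rw [Finset.mem_filter, Finset.mem_range]
  let L : Finset ℕ := (Finset.range B).filter fun l => N l < B
  have hsub : F {a | ∃ l, a ∈ S l ∧ ∀ m, a ∉ Ip E m (N l)} ⊆ L.biUnion fun l => F (S l) := by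
    intro κ hκ
    obtain ⟨hκX, l, hl, hlm⟩ := Finset.mem_filter.mp hκ
    have hκX' := Finset.mem_range.mp hκX
    have h1 : x + κ ∈ Ip E m B := ip_shift E m (X ^ A) X κ hX hκX'.le x hx
    have h2 : N l < B := by
      by_contra h
      exact hlm m (ip_mono E m _ _ (not_lt.mp h) h1)
    rw [Finset.mem_biUnion]
    refine ⟨l, Finset.mem_filter.mpr ⟨Finset.mem_range.mpr ?_, h2⟩, Finset.mem_filter.mpr ⟨hκX, hl⟩⟩
    have := hN1 l
    omega
  have hterm : ∀ l ∈ L, ((F (S l)).card : ℝ) ≤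
      ((if l < M0 then c l m A else 0) + (1 / 2) ^ (l + 1) * b ^ γ) * (X : ℝ) ^ (1 - δ') := by
    intro l hl
    have hNB : N l < B := (Finset.mem_filter.mp hl).2
    have h1 : ((F (S l)).card : ℝ) ≤ c l m A * (X : ℝ) ^ (1 - δ) := by
      rw [← hF]
      refine (hC l m A X hX x hx).trans ?_
      exact mul_le_mul_of_nonneg_right (hcC l m A) (Real.rpow_nonneg hX0.le _)
    have hsplit : (X : ℝ) ^ (1 - δ') = (X : ℝ) ^ γ * (X : ℝ) ^ (1 - δ) := by
      rw [← Real.rpow_add hX0]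
      congr 1
      show 1 - δ' = (δ - δ') + (1 - δ)
      ring
    refine h1.trans ?_
    rw [hsplit, ← mul_assoc]
    refine mul_le_mul_of_nonneg_right ?_ (Real.rpow_nonneg hX0.le _)
    have hXγ : (1 : ℝ) ≤ (X : ℝ) ^ γ := Real.one_le_rpow hX1 hγ.le
    have hbγ : 0 ≤ b ^ γ := Real.rpow_nonneg hb0 _
    by_cases hlM : l < M0
    · rw [if_pos hlM]
      have h2 : 0 ≤ (1 / 2 : ℝ) ^ (l + 1) * b ^ γ := by positivity
      calc c l m A = c l m A * 1 := (mul_one _).symm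
        _ ≤ (c l m A + (1 / 2) ^ (l + 1) * b ^ γ) * (X : ℝ) ^ γ :=
          mul_le_mul (by linarith) hXγ zero_le_one (add_nonneg (hc0 _ _ _) h2)
    · rw [if_neg hlM, zero_add]
      have hml : m ≤ l := (le_max_left m A).trans (not_lt.mp hlM)
      have hAl : A ≤ l := (le_max_right m A).trans (not_lt.mp hlM)
      have h3 : c l m A ≤ (1 / 2) ^ (l + 1) * (N l : ℝ) ^ θ l := by
        have h4 : 2 ^ (l + 1) * c l m A ≤ (N l : ℝ) ^ θ l :=
          (mul_le_mul_of_nonneg_left (hMx l m A hml hAl) (by positivity)).trans (hN2 l)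
        have h5 : c l m A = (1 / 2) ^ (l + 1) * (2 ^ (l + 1) * c l m A) := by
          rw [← mul_assoc, ← mul_pow]
          norm_num
        rw [h5]
        exact mul_le_mul_of_nonneg_left h4 (by positivity)
      refine h3.trans ?_
      rw [mul_assoc]
      refine mul_le_mul_of_nonneg_left ?_ (by positivity)
      have h6 : (N l : ℝ) ^ θ l ≤ (B : ℝ) ^ θ l :=
        Real.rpow_le_rpow (Nat.cast_nonneg _) (by exact_mod_cast hNB.le) (hθ l).le
      refine h6.trans ?_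
      rw [hBr, Real.mul_rpow hb0 (Real.rpow_nonneg hX0.le _), ← Real.rpow_mul hX0.le]
      have h7 : θ l ≤ γ := by
        show γ / (2 * l + 1) ≤ γ
        refine div_le_self hγ.le ?_
        have : (0 : ℝ) ≤ l := Nat.cast_nonneg l
        linarith
      have h8 : ((m + A : ℕ) : ℝ) * θ l ≤ γ := by
        show ((m + A : ℕ) : ℝ) * (γ / (2 * l + 1)) ≤ γ
        have h9 : (0 : ℝ) < 2 * l + 1 := by positivity
        have h10 : ((m + A : ℕ) : ℝ) ≤ 2 * l + 1 := by
          have : m + A ≤ 2 * l + 1 := by omega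
          exact_mod_cast this
        rw [mul_div_assoc', div_le_iff₀ h9, mul_comm γ]
        exact mul_le_mul_of_nonneg_right h10 hγ.le
      exact mul_le_mul (Real.rpow_le_rpow_of_exponent_le hb1 h7)
        (Real.rpow_le_rpow_of_exponent_le hX1 h8) (Real.rpow_nonneg hX0.le _) hbγ
  rw [hF]
  have hcard : ((F {a | ∃ l, a ∈ S l ∧ ∀ m, a ∉ Ip E m (N l)}).card : ℝ) ≤
      ∑ l ∈ L, ((F (S l)).card : ℝ) := by
    have h1 := (Finset.card_le_card hsub).trans Finset.card_biUnion_le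
    exact_mod_cast h1
  refine hcard.trans ((Finset.sum_le_sum hterm).trans ?_)
  rw [← Finset.sum_mul]
  refine mul_le_mul_of_nonneg_right ?_ (Real.rpow_nonneg hX0.le _)
  rw [Finset.sum_add_distrib, ← Finset.sum_mul]
  refine add_le_add ?_ ?_
  · rw [← Finset.sum_filter]
    refine Finset.sum_le_sum_of_subset_of_nonneg ?_ fun l _ _ => hc0 l m A
    intro l hl
    exact Finset.mem_range.mpr (Finset.mem_filter.mp hl).2
  · have h1 : ∑ l ∈ L, (1 / 2 : ℝ) ^ (l + 1) ≤ 1 := by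
      refine (Finset.sum_le_sum_of_subset_of_nonneg (Finset.filter_subset _ _)
        fun l _ _ => by positivity).trans ?_
      have h2 : ∀ n : ℕ, ∑ l ∈ Finset.range n, (1 / 2 : ℝ) ^ (l + 1) = 1 - (1 / 2) ^ n := by
        intro n
        induction n with
        | zero => simp
        | succ n ih =>
          rw [Finset.sum_range_succ, ih]
          ring
      rw [h2]
      have : (0 : ℝ) < (1 / 2) ^ B := by positivity
      linarith
    calc (∑ l ∈ L, (1 / 2 : ℝ) ^ (l + 1)) * b ^ γ ≤ 1 * b ^ γ :=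
          mul_le_mul_of_nonneg_right h1 (Real.rpow_nonneg hb0 _)
      _ = b ^ γ := one_mul _

end Pool.Agent.HUK.H81
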